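import Pool.Agent.R763.QuadMain

set_option autoImplicit false
open MeasureTheory

namespace Pool.Agent.Results.MP_0815b2_gt.ChordsDiameter

open Pool.Agent.R763.Str

/-- Perpendicular chords `[a,c]`, `[b,d]` that quadrisect the perimeter of a plane convex figure
satisfy `|ac| + |bd| > D`, where `D` is the diameter of the figure. -/
theorem result (F : Set (EuclideanSpace ℝ (Fin 2))) (hF : IsCompact F) (hconv : Convex ℝ F)
    (hint : (interior F).Nonempty) (a b c d : EuclideanSpace ℝ (Fin 2))
    (A B C D : Set (EuclideanSpace ℝ (Fin 2))) (hq : Quadrisect F a b c d A B C D)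
    (hperp : inner ℝ (c - a) (d - b) = 0) :
    Metric.diam F < dist a c + dist b d := by
  have h2 := (quadrisect_main hq hF hconv hint hperp).1
  have hne : F.Nonempty := hint.mono interior_subset
  have hcont : Continuous (fun p : EuclideanSpace ℝ (Fin 2) × EuclideanSpace ℝ (Fin 2) =>
      dist p.1 p.2) := by fun_prop
  obtain ⟨p, hp, hmax⟩ := (hF.prod hF).exists_isMaxOn (hne.prod hne) hcont.continuousOn
  have h3 : Metric.diam F ≤ dist p.1 p.2 := by
    apply Metric.diam_le_of_forall_dist_le dist_nonneg
    intro z hz w hw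
    exact isMaxOn_iff.1 hmax (z, w) (Set.mk_mem_prod hz hw)
  have h4 := two_mul_dist_lt hF hconv hint hp.1 hp.2
  linarith

end Pool.Agent.Results.MP_0815b2_gt.ChordsDiameter
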